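import Mathlib
import Pool.Agent.X110.ZE

/-!
MP_9a1873_nt, Q1: for every `ℓ ≥ 1` and every `σ ∈ (0,1)` the maxima
`M_ℓ(σ,T) = max_{T ≤ t ≤ 2T} |ζ^{(ℓ)}(σ+it)|` and `M_0(σ,T)` differ by at most powers of `log T`:
`(log T)^{-ℓ/2} M_0 ≪ M_ℓ ≪ (log T)^{2ℓ} M_0`.
-/

set_option autoImplicit false

namespace Pool.Agent.Results.MP_9a1873_nt.ZetaDerivMaxima

open Complex Set Pool.Agent.X110.ZB

/-- `M_ℓ(σ,T) = max_{T ≤ t ≤ 2T} |ζ^{(ℓ)}(σ+it)|`. -/
noncomputable def M (l : ℕ) (σ T : ℝ) : ℝ :=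
  sSup ((fun t : ℝ => ‖iteratedDeriv l riemannZeta ((σ : ℂ) + (t : ℂ) * I)‖) '' Icc T (2 * T))

lemma cont (l : ℕ) (σ : ℝ) {T : ℝ} (hT : 0 < T) :
    ContinuousOn (fun t : ℝ => ‖iteratedDeriv l riemannZeta ((σ : ℂ) + (t : ℂ) * I)‖)
      (Icc T (2 * T)) := by
  intro t ht
  have hne : (σ + t * I : ℂ) ≠ 1 := by
    apply ne_one_of_im
    simp only [add_im, ofReal_im, mul_im, ofReal_re, I_im, I_re, mul_one, mul_zero, add_zero,
      zero_add]
    rw [abs_of_pos (by linarith [ht.1])]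
    linarith [ht.1]
  have h1 : ContinuousAt (Z l) (σ + t * I : ℂ) := (Z_diffAt l hne).continuousAt
  have h2 : ContinuousAt (fun t : ℝ => (σ + t * I : ℂ)) t := by fun_prop
  have h3 : ContinuousAt (fun t : ℝ => Z l (σ + t * I : ℂ)) t :=
    ContinuousAt.comp (f := fun t : ℝ => (σ + t * I : ℂ)) (x := t) h1 h2
  exact h3.norm.continuousWithinAt

lemma le_M (l : ℕ) (σ : ℝ) {T : ℝ} (hT : 0 < T) :
    ∀ t ∈ Icc T (2 * T), ‖Z l (σ + t * I)‖ ≤ M l σ T := by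
  intro t ht
  exact le_csSup (isCompact_Icc.image_of_continuousOn (cont l σ hT)).bddAbove
    (mem_image_of_mem _ ht)

lemma M_le (l : ℕ) (σ : ℝ) {T : ℝ} (hT : 0 < T) {B : ℝ}
    (hB : ∀ t ∈ Icc T (2 * T), ‖Z l (σ + t * I)‖ ≤ B) : M l σ T ≤ B := by
  apply csSup_le
  · exact (nonempty_Icc.2 (by linarith)).image _
  · rintro _ ⟨t, ht, rfl⟩
    exact hB t ht

/-- the value `M_ℓ(σ,T)` is attained (it is a maximum) -/
theorem M_attained (l : ℕ) (σ : ℝ) {T : ℝ} (hT : 0 < T) :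
    ∃ t ∈ Icc T (2 * T), ‖iteratedDeriv l riemannZeta ((σ : ℂ) + (t : ℂ) * I)‖ = M l σ T := by
  obtain ⟨t, ht, h⟩ := isCompact_Icc.exists_sSup_image_eq (nonempty_Icc.2 (by linarith : T ≤ 2 * T))
    (cont l σ hT)
  exact ⟨t, ht, h.symm⟩

lemma lower (l : ℕ) {σ : ℝ} (hσ : 0 < σ) (hσ1 : σ ≤ 1) : ∃ K : ℝ, 0 < K ∧ ∃ T0 : ℝ,
    ∀ T : ℝ, T0 ≤ T → M 0 σ T ≤ K * Real.sqrt (Real.log T) ^ l * M l σ T := by
  induction l with
  | zero => exact ⟨1, one_pos, 0, fun T _ => by simp⟩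
  | succ l ih =>
    obtain ⟨K, hK, T0, h⟩ := ih
    obtain ⟨K', hK', T0', h'⟩ := down_M l hσ hσ1
    refine ⟨K * K', by positivity, max 1 (max T0 T0'), fun T hT => ?_⟩
    have hT1 : 1 ≤ T := (le_max_left _ _).trans hT
    have hTa : T0 ≤ T := (le_max_left _ _).trans ((le_max_right _ _).trans hT)
    have hTb : T0' ≤ T := (le_max_right _ _).trans ((le_max_right _ _).trans hT)
    have h1 := h T hTa
    have h2 := M_le l σ (by linarith) (h' T hTb (M (l + 1) σ T) (le_M (l + 1) σ (by linarith)))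
    calc M 0 σ T ≤ K * Real.sqrt (Real.log T) ^ l * M l σ T := h1
      _ ≤ K * Real.sqrt (Real.log T) ^ l * (K' * Real.sqrt (Real.log T) * M (l + 1) σ T) := by
          gcongr
      _ = _ := by ring

theorem result (l : ℕ) (_hl : 1 ≤ l) (σ : ℝ) (hσ : 0 < σ) (hσ1 : σ < 1) :
    ∃ K : ℝ, 0 < K ∧ ∃ T0 : ℝ, ∀ T : ℝ, T0 ≤ T →
      (Real.log T) ^ (-((l : ℝ) / 2)) * M 0 σ T ≤ K * M l σ T ∧
      M l σ T ≤ K * ((Real.log T) ^ (2 * (l : ℝ)) * M 0 σ T) := by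
  obtain ⟨K1, hK1, T1, h1⟩ := lower l hσ hσ1.le
  obtain ⟨K2, hK2, T2, h2⟩ := up_M l hσ hσ1.le
  refine ⟨max K1 K2, lt_max_of_lt_left hK1, max 3 (max T1 T2), fun T hT => ?_⟩
  have hT1 : 3 ≤ T := (le_max_left _ _).trans hT
  have hTa : T1 ≤ T := (le_max_left _ _).trans ((le_max_right _ _).trans hT)
  have hTb : T2 ≤ T := (le_max_right _ _).trans ((le_max_right _ _).trans hT)
  have hT0 : 0 < T := by linarith
  have hlog : 0 < Real.log T := Real.log_pos (by linarith)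
  have hM0 : 0 ≤ M 0 σ T := (norm_nonneg _).trans (le_M 0 σ hT0 T ⟨le_rfl, by linarith⟩)
  have hMl : 0 ≤ M l σ T := (norm_nonneg _).trans (le_M l σ hT0 T ⟨le_rfl, by linarith⟩)
  constructor
  · have h3 := h1 T hTa
    have e : Real.sqrt (Real.log T) ^ l = (Real.log T) ^ ((l : ℝ) / 2) := by
      rw [Real.sqrt_eq_rpow, ← Real.rpow_natCast, ← Real.rpow_mul hlog.le]
      congr 1
      ring
    rw [e] at h3
    calc (Real.log T) ^ (-((l : ℝ) / 2)) * M 0 σ T ≤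
        (Real.log T) ^ (-((l : ℝ) / 2)) * (K1 * (Real.log T) ^ ((l : ℝ) / 2) * M l σ T) := by
          gcongr
      _ = K1 * M l σ T := by
          rw [Real.rpow_neg hlog.le]
          field_simp
      _ ≤ _ := by
          gcongr
          exact le_max_left _ _
  · have h3 := M_le l σ hT0 (h2 T hTb (M 0 σ T) (le_M 0 σ hT0))
    have e : Real.log T ^ (2 * l) = (Real.log T) ^ (2 * (l : ℝ)) := by
      rw [← Real.rpow_natCast]
      push_cast
      rfl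
    rw [e] at h3
    refine h3.trans ?_
    rw [mul_assoc]
    gcongr
    exact le_max_right _ _

end Pool.Agent.Results.MP_9a1873_nt.ZetaDerivMaxima
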